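import Mathlib
import Pool.Agent.H7.Frobenius.Defs
import Pool.Agent.H7.Frobenius.Proof

set_option autoImplicit false

namespace Pool.Agent.Results.MP_c23b5e_al.NoneHold

open Pool.Agent.H7.Frobenius
open scoped Pointwise

/-- None of the properties (i), (ii), (iii) holds for all nontrivial Frobenius partitions
`{Γ₁} ∪ 𝒜` of infinite groups, even when `Γ₁` and all members of `𝒜` are nontrivial:
(i) an infinite group can have two such partitions with different normal subgroups `Γ₁`;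
(ii) `𝒜` can have two non-isomorphic members;
(iii) it can happen that `Γ₁ A ≠ Γ` for every `A ∈ 𝒜`. -/
theorem result :
    (∃ (Γ : Type) (_ : Group Γ) (N N' : Subgroup Γ) (𝒜 𝒜' : Set (Subgroup Γ)), Infinite Γ ∧
      IsNontrivialFrobeniusPartition N 𝒜 ∧ N ≠ ⊥ ∧ (∀ A ∈ 𝒜, A ≠ ⊥) ∧
      IsNontrivialFrobeniusPartition N' 𝒜' ∧ N' ≠ ⊥ ∧ (∀ A ∈ 𝒜', A ≠ ⊥) ∧
      N ≠ N') ∧
    (∃ (Γ : Type) (_ : Group Γ) (N : Subgroup Γ) (𝒜 : Set (Subgroup Γ)), Infinite Γ ∧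
      IsNontrivialFrobeniusPartition N 𝒜 ∧ N ≠ ⊥ ∧ (∀ A ∈ 𝒜, A ≠ ⊥) ∧
      ∃ A ∈ 𝒜, ∃ B ∈ 𝒜, IsEmpty (A ≃* B)) ∧
    (∃ (Γ : Type) (_ : Group Γ) (N : Subgroup Γ) (𝒜 : Set (Subgroup Γ)), Infinite Γ ∧
      IsNontrivialFrobeniusPartition N 𝒜 ∧ N ≠ ⊥ ∧ (∀ A ∈ 𝒜, A ≠ ⊥) ∧
      ∀ A ∈ 𝒜, (N : Set Γ) * (A : Set Γ) ≠ Set.univ) :=
  ⟨⟨G1, inferInstance, pre L1, pre L2, stabs K1 (pre L1), stabs K1 (pre L2), inferInstance,
      fp_L1, pre_ne_bot _, stabs_ne_bot _, fp_L2, pre_ne_bot _, stabs_ne_bot _, L1_ne_L2⟩,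
    ⟨P4, inferInstance, trans, stabs K2 trans, inferInstance, fp_trans, trans_ne_bot,
      stabs_ne_bot _, p4_not_iso⟩,
    ⟨G1, inferInstance, pre ⊥, stabs K1 (pre ⊥), inferInstance, fp_bot, pre_ne_bot _,
      stabs_ne_bot _, no_complement⟩⟩

end Pool.Agent.Results.MP_c23b5e_al.NoneHold
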